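import Mathlib

/-!
# Edge-maximal connected `K_3`-good graphs

The lower bounds `e_1(n)` and `e_2(n)` for `g(K_3, n)` are attained only for `n ≤ 3`.
-/

set_option autoImplicit false

namespace Pool.Agent.Results.MP_0fcc2a_co.BookSurplus

open Finset

section Book

/-- The Ramsey number of a triangle versus the book with `m ≥ 2` pages is at most `2 m + 3`
(Rousseau and Sheehan). -/
theorem book {V : Type*} [Fintype V] (R : SimpleGraph V) (m : ℕ) (hm : 2 ≤ m)
    (hcard : Fintype.card V = 2 * m + 3)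
    (htf : ∀ a b c, R.Adj a b → R.Adj b c → ¬ R.Adj a c) :
    ∃ u v, u ≠ v ∧ ¬ R.Adj u v ∧ ∃ W : Finset V, W.card = m ∧ ∀ w ∈ W, w ≠ u ∧ w ≠ v ∧
      ¬ R.Adj u w ∧ ¬ R.Adj v w := by
  classical
  let N : V → Finset V := fun v => Finset.univ.filter (fun w => R.Adj v w)
  have memN : ∀ v w, w ∈ N v ↔ R.Adj v w := fun v w => by simp [N]
  suffices hex : ∃ u v, u ≠ v ∧ ¬ R.Adj u v ∧ (N u ∪ N v).card ≤ m + 1 by
    obtain ⟨u, v, huv, hna, hc⟩ := hex
    have h1 : m ≤ (Finset.univ \ (insert u (insert v (N u ∪ N v)))).card := by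
      rw [Finset.card_sdiff_of_subset (Finset.subset_univ _), Finset.card_univ, hcard]
      have h2 := Finset.card_insert_le u (insert v (N u ∪ N v))
      have h3 := Finset.card_insert_le v (N u ∪ N v)
      omega
    obtain ⟨W, hW, hWc⟩ := Finset.exists_subset_card_eq h1
    refine ⟨u, v, huv, hna, W, hWc, fun w hw => ?_⟩
    have h4 := (Finset.mem_sdiff.1 (hW hw)).2
    simp only [Finset.mem_insert, Finset.mem_union, memN, not_or] at h4
    exact h4
  by_contra hcon
  push Not at hcon
  have H : ∀ u v, u ≠ v → ¬ R.Adj u v → m + 2 ≤ (N u ∪ N v).card := hcon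
  have hC4 : ∀ p q x y, p ≠ q → x ≠ y → R.Adj p x → R.Adj q x → R.Adj p y → R.Adj q y → False := by
    intro p q x y hpq hxy h1 h2 h3 h4
    have hpq' : ¬ R.Adj p q := htf p x q h1 h2.symm
    have hxy' : ¬ R.Adj x y := htf x p y h1.symm h3
    have hd : Disjoint (N p ∪ N q) (N x ∪ N y) := by
      rw [Finset.disjoint_left]
      intro z hz hz'
      rw [Finset.mem_union, memN, memN] at hz hz'
      rcases hz with hz | hz <;> rcases hz' with hz' | hz'
      · exact htf p x z h1 hz' hz
      · exact htf p y z h3 hz' hz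
      · exact htf q x z h2 hz' hz
      · exact htf q y z h4 hz' hz
    have h5 := Finset.card_le_univ ((N p ∪ N q) ∪ (N x ∪ N y))
    rw [Finset.card_union_of_disjoint hd, hcard] at h5
    have h6 := H p q hpq hpq'
    have h7 := H x y hxy hxy'
    omega
  have hinter : ∀ v a a', a ≠ a' → R.Adj v a → R.Adj v a' → N a ∩ N a' = {v} := by
    intro v a a' haa h1 h2
    ext x
    rw [Finset.mem_inter, memN, memN, Finset.mem_singleton]
    constructor
    · rintro ⟨h3, h4⟩
      by_contra hne
      exact hC4 a a' x v haa hne h3 h4 h1.symm h2.symm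
    · rintro rfl
      exact ⟨h1.symm, h2.symm⟩
  have hpair : ∀ v a a', a ≠ a' → R.Adj v a → R.Adj v a' →
      (N a ∪ N a').card + 1 = (N a).card + (N a').card := by
    intro v a a' haa h1 h2
    have h3 := Finset.card_union_add_card_inter (N a) (N a')
    rw [hinter v a a' haa h1 h2, Finset.card_singleton] at h3
    exact h3
  have hsum : ∀ v a a', a ≠ a' → R.Adj v a → R.Adj v a' → m + 3 ≤ (N a).card + (N a').card := by
    intro v a a' haa h1 h2
    have h3 := hpair v a a' haa h1 h2
    have h4 := H a a' haa (htf a v a' h1.symm h2)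
    omega
  have hdeg3 : ∀ v, (N v).card ≤ 3 := by
    intro v
    by_contra hgt
    push Not at hgt
    obtain ⟨a, ha, b, hb, hab⟩ := Finset.one_lt_card.1 (show 1 < (N v).card by omega)
    have h1 : 1 < (((N v).erase a).erase b).card := by
      rw [Finset.card_erase_of_mem (Finset.mem_erase.2 ⟨hab.symm, hb⟩),
        Finset.card_erase_of_mem ha]
      omega
    obtain ⟨c, hc, d, hd, hcd⟩ := Finset.one_lt_card.1 h1
    rw [Finset.mem_erase, Finset.mem_erase] at hc hd
    rw [memN] at ha hb
    have hc' : R.Adj v c := (memN _ _).1 hc.2.2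
    have hd' : R.Adj v d := (memN _ _).1 hd.2.2
    have hS : (N a ∪ N b) ∩ (N c ∪ N d) ⊆ {v} := by
      intro x hx
      rw [Finset.mem_inter, Finset.mem_union, Finset.mem_union] at hx
      rcases hx.1 with h3 | h3 <;> rcases hx.2 with h4 | h4
      · rw [← hinter v a c hc.2.1.symm ha hc']; exact Finset.mem_inter.2 ⟨h3, h4⟩
      · rw [← hinter v a d hd.2.1.symm ha hd']; exact Finset.mem_inter.2 ⟨h3, h4⟩
      · rw [← hinter v b c hc.1.symm hb hc']; exact Finset.mem_inter.2 ⟨h3, h4⟩
      · rw [← hinter v b d hd.1.symm hb hd']; exact Finset.mem_inter.2 ⟨h3, h4⟩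
    have h5 := Finset.card_union_add_card_inter (N a ∪ N b) (N c ∪ N d)
    have h6 := Finset.card_le_card hS
    rw [Finset.card_singleton] at h6
    have h7 := H a b hab (htf a v b ha.symm hb)
    have h8 := H c d hcd (htf c v d hc'.symm hd')
    have h9 : a ∉ (N a ∪ N b) ∪ (N c ∪ N d) := by
      simp only [Finset.mem_union, memN, not_or]
      exact ⟨⟨R.irrefl, fun h => htf b v a hb.symm ha h⟩, fun h => htf c v a hc'.symm ha h,
        fun h => htf d v a hd'.symm ha h⟩
    have h10 := Finset.card_lt_univ_of_notMem h9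
    omega
  obtain ⟨u, v, huv, hna⟩ : ∃ u v, u ≠ v ∧ ¬ R.Adj u v := by
    obtain ⟨a, b, c, hab, hac, hbc⟩ := Fintype.two_lt_card_iff.1 (show 2 < Fintype.card V by omega)
    by_contra hcon
    push Not at hcon
    exact htf a b c (hcon a b hab) (hcon b c hbc) (hcon a c hac)
  have hm4 : m ≤ 4 := by
    have h1 := H u v huv hna
    have h2 := Finset.card_union_le (N u) (N v)
    have h3 := hdeg3 u
    have h4 := hdeg3 v
    omega
  have hdeg2 : ∀ v, (N v).card ≤ 2 := by
    intro v
    by_contra hgt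
    push Not at hgt
    obtain ⟨a, b, c, ha, hb, hc, hab, hac, hbc⟩ := Finset.two_lt_card_iff.1 hgt
    rw [memN] at ha hb hc
    have hS : (N a ∪ N b) ∩ N c ⊆ {v} := by
      intro x hx
      rw [Finset.mem_inter, Finset.mem_union] at hx
      rcases hx.1 with h3 | h3
      · rw [← hinter v a c hac ha hc]; exact Finset.mem_inter.2 ⟨h3, hx.2⟩
      · rw [← hinter v b c hbc hb hc]; exact Finset.mem_inter.2 ⟨h3, hx.2⟩
    have h5 := Finset.card_union_add_card_inter (N a ∪ N b) (N c)
    have h6 := Finset.card_le_card hS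
    rw [Finset.card_singleton] at h6
    have h7 := hpair v a b hab ha hb
    have h8 := hsum v a b hab ha hb
    have h9 := hsum v a c hac ha hc
    have h10 := hsum v b c hbc hb hc
    have h11 : Disjoint ({a, b, c} : Finset V) ((N a ∪ N b) ∪ N c) := by
      rw [Finset.disjoint_left]
      intro x hx hx'
      simp only [Finset.mem_insert, Finset.mem_singleton] at hx
      simp only [Finset.mem_union, memN] at hx'
      have hvx : R.Adj v x := by
        rcases hx with rfl | rfl | rfl
        · exact ha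
        · exact hb
        · exact hc
      rcases hx' with (h | h) | h
      · exact htf a v x ha.symm hvx h
      · exact htf b v x hb.symm hvx h
      · exact htf c v x hc.symm hvx h
    have h12 := Finset.card_le_univ (({a, b, c} : Finset V) ∪ ((N a ∪ N b) ∪ N c))
    rw [Finset.card_union_of_disjoint h11, hcard,
      Finset.card_insert_of_notMem (by simp [hab, hac]), Finset.card_pair hbc] at h12
    omega
  have h1 := H u v huv hna
  have h2 := Finset.card_union_le (N u) (N v)
  have h3 := hdeg2 u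
  have h4 := hdeg2 v
  obtain ⟨a, ha, b, hb, hab⟩ := Finset.one_lt_card.1 (show 1 < (N u).card by omega)
  rw [memN] at ha hb
  have h5 := hsum u a b hab ha hb
  have h6 := hdeg2 a
  have h7 := hdeg2 b
  omega

end Book

section Defs

/-- Every red/blue colouring of the edges of the complete graph on `N` vertices (the graph `R` of
red edges being arbitrary) contains a red copy of `F` or a blue copy of `G`. -/
def Arrows {V W : Type*} (F : SimpleGraph V) (G : SimpleGraph W) (N : ℕ) : Prop :=
  ∀ R : SimpleGraph (Fin N), F.IsContained R ∨ G.IsContained Rᶜ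

/-- The Ramsey number `r(F, G)`: the least `N` with the above property. -/
noncomputable def ramsey {V W : Type*} (F : SimpleGraph V) (G : SimpleGraph W) : ℕ∞ :=
  sInf {x : ℕ∞ | ∃ N : ℕ, x = N ∧ Arrows F G N}

/-- The triangle. -/
def K3 : SimpleGraph (Fin 3) := ⊤

/-- A connected `K_3`-good graph. -/
def ConnectedGood {V : Type*} [Fintype V] (G : SimpleGraph V) : Prop :=
  G.Connected ∧ ramsey K3 G = ((2 * Fintype.card V - 1 : ℕ) : ℕ∞)

/-- The largest number of edges of a connected `K_3`-good graph with `n` vertices. -/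
noncomputable def g (n : ℕ) : ℕ :=
  sSup {q : ℕ | ∃ (V : Type) (_ : Fintype V) (G : SimpleGraph V),
    Fintype.card V = n ∧ ConnectedGood G ∧ q = G.edgeSet.ncard}

/-- The disjoint union of complete graphs of orders `s 0, ..., s (t - 1)`. -/
def cliqueUnion {t : ℕ} (s : Fin t → ℕ) : SimpleGraph (Σ i, Fin (s i)) where
  Adj x y := x.1 = y.1 ∧ x ≠ y
  symm := ⟨fun _ _ h => ⟨h.1.symm, h.2.symm⟩⟩
  loopless := ⟨fun _ h => h.2 rfl⟩

/-- The number `e_1(n)`. -/
noncomputable def e1 (n : ℕ) : ℕ :=
  n - 1 + sSup {q : ℕ | ∃ t s : ℕ, 1 ≤ t ∧ 1 ≤ s ∧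
    ramsey K3 (cliqueUnion (fun _ : Fin t => s)) ≤ ((n - 1 : ℕ) : ℕ∞) ∧ q = t * s.choose 2}

/-- The number `e_2(n)`. -/
noncomputable def e2 (n : ℕ) : ℕ :=
  n - 1 + sSup {q : ℕ | ∃ (t : ℕ) (s : Fin t → ℕ), 1 ≤ t ∧ (∀ i, 1 ≤ s i) ∧
    ramsey K3 (cliqueUnion s) ≤ ((n - 1 : ℕ) : ℕ∞) ∧ q = ∑ i, (s i).choose 2}

end Defs

section Basic

theorem Arrows.mono {V W : Type*} {F : SimpleGraph V} {G : SimpleGraph W} {k l : ℕ} (hkl : k ≤ l)
    (h : Arrows F G k) : Arrows F G l := by
  intro R
  let e : Fin k ↪ Fin l := Fin.castLEEmb hkl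
  rcases h (R.comap e) with ⟨⟨f⟩⟩ | ⟨⟨f⟩⟩
  · left
    exact ⟨⟨⟨fun v => e (f v), fun {a b} hab => f.toHom.map_adj hab⟩,
      fun a b hab => f.injective (e.injective hab)⟩⟩
  · right
    refine ⟨⟨⟨fun v => e (f v), fun {a b} hab => ?_⟩,
      fun a b hab => f.injective (e.injective hab)⟩⟩
    have h1 := f.toHom.map_adj hab
    rw [SimpleGraph.compl_adj] at h1 ⊢
    exact ⟨fun h2 => h1.1 (e.injective h2), h1.2⟩

theorem ramsey_le_iff {V W : Type*} {F : SimpleGraph V} {G : SimpleGraph W} {k : ℕ} :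
    ramsey F G ≤ k ↔ Arrows F G k := by
  constructor
  · intro h
    by_contra hk
    have h1 : ((k + 1 : ℕ) : ℕ∞) ≤ ramsey F G := by
      apply le_sInf
      rintro x ⟨N, rfl, hN⟩
      have : k < N := by
        by_contra hle
        exact hk (hN.mono (not_lt.1 hle))
      exact_mod_cast this
    have h2 := h1.trans h
    have h3 : k + 1 ≤ k := by exact_mod_cast h2
    omega
  · intro h
    exact sInf_le ⟨k, rfl, h⟩

theorem ramsey_eq_iff {V W : Type*} {F : SimpleGraph V} {G : SimpleGraph W} {k : ℕ} :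
    ramsey F G = ((k + 1 : ℕ) : ℕ∞) ↔ Arrows F G (k + 1) ∧ ¬ Arrows F G k := by
  rw [← ramsey_le_iff, ← ramsey_le_iff]
  constructor
  · intro h
    rw [h]
    refine ⟨le_rfl, ?_⟩
    rw [not_le]
    exact_mod_cast Nat.lt_succ_self k
  · rintro ⟨h1, h2⟩
    apply le_antisymm h1
    rw [not_le] at h2
    have := Order.add_one_le_of_lt h2
    exact_mod_cast this

theorem K3_contained_iff {V : Type*} {R : SimpleGraph V} :
    K3.IsContained R ↔ ∃ a b c, R.Adj a b ∧ R.Adj b c ∧ R.Adj a c := by
  constructor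
  · rintro ⟨f⟩
    refine ⟨f 0, f 1, f 2, f.toHom.map_adj ?_, f.toHom.map_adj ?_, f.toHom.map_adj ?_⟩
    · show (0 : Fin 3) ≠ 1
      decide
    · show (1 : Fin 3) ≠ 2
      decide
    · show (0 : Fin 3) ≠ 2
      decide
  · rintro ⟨a, b, c, h1, h2, h3⟩
    refine ⟨⟨⟨![a, b, c], ?_⟩, ?_⟩⟩
    · intro i j hij
      have hij' : i ≠ j := hij
      fin_cases i <;> fin_cases j
      · exact absurd rfl hij'
      · exact h1
      · exact h3
      · exact h1.symm
      · exact absurd rfl hij'
      · exact h2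
      · exact h3.symm
      · exact h2.symm
      · exact absurd rfl hij'
    · intro i j hij
      fin_cases i <;> fin_cases j
      · rfl
      · exact absurd hij h1.ne
      · exact absurd hij h3.ne
      · exact absurd hij h1.ne'
      · rfl
      · exact absurd hij h2.ne
      · exact absurd hij h3.ne'
      · exact absurd hij h2.ne'
      · rfl

theorem cliqueUnion_contained_iff {t : ℕ} {s : Fin t → ℕ} {V : Type*} {R : SimpleGraph V} :
    (cliqueUnion s).IsContained Rᶜ ↔ ∃ T : Fin t → Finset V, (∀ i, (T i).card = s i) ∧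
      (∀ i j, i ≠ j → Disjoint (T i) (T j)) ∧ ∀ i, ∀ x ∈ T i, ∀ y ∈ T i, ¬ R.Adj x y := by
  classical
  constructor
  · rintro ⟨f⟩
    refine ⟨fun i => Finset.univ.image (fun a : Fin (s i) => f ⟨i, a⟩), ?_, ?_, ?_⟩
    · intro i
      rw [Finset.card_image_of_injective]
      · simp
      · intro a b hab
        have := f.injective hab
        simpa using this
    · intro i j hij
      rw [Finset.disjoint_left]
      intro x hx hx'
      obtain ⟨a, -, ha⟩ := Finset.mem_image.1 hx
      obtain ⟨b, -, hb⟩ := Finset.mem_image.1 hx'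
      have := f.injective (ha.trans hb.symm)
      exact hij (congrArg Sigma.fst this)
    · intro i x hx y hy hxy
      obtain ⟨a, -, ha⟩ := Finset.mem_image.1 hx
      obtain ⟨b, -, hb⟩ := Finset.mem_image.1 hy
      have hne : (⟨i, a⟩ : Σ i, Fin (s i)) ≠ ⟨i, b⟩ := by
        intro h
        rw [← ha, ← hb, h] at hxy
        exact hxy.ne rfl
      have h1 : (cliqueUnion s).Adj ⟨i, a⟩ ⟨i, b⟩ := ⟨rfl, hne⟩
      have h2 := f.toHom.map_adj h1
      rw [SimpleGraph.compl_adj] at h2
      apply h2.2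
      have e1 : f.toHom ⟨i, a⟩ = x := ha
      have e2 : f.toHom ⟨i, b⟩ = y := hb
      rw [e1, e2]
      exact hxy
  · rintro ⟨T, hT1, hT2, hT3⟩
    let e : ∀ i, Fin (s i) ≃ T i := fun i => ((T i).equivFinOfCardEq (hT1 i)).symm
    have hinj : Function.Injective (fun x : Σ i, Fin (s i) => ((e x.1 x.2 : T x.1) : V)) := by
      rintro ⟨i, a⟩ ⟨j, b⟩ hab
      simp only at hab
      have hij : i = j := by
        by_contra hne
        have h1 := (e i a).2
        have h2 := (e j b).2
        rw [← hab] at h2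
        exact Finset.disjoint_left.1 (hT2 i j hne) h1 h2
      subst hij
      have := (e i).injective (Subtype.ext hab)
      rw [this]
    refine ⟨⟨⟨fun x => ((e x.1 x.2 : T x.1) : V), ?_⟩, hinj⟩⟩
    rintro ⟨i, a⟩ ⟨j, b⟩ hab
    have hne : (⟨i, a⟩ : Σ i, Fin (s i)) ≠ ⟨j, b⟩ := hab.2
    have hij : i = j := hab.1
    subst hij
    rw [SimpleGraph.compl_adj]
    exact ⟨fun h => hne (hinj h), hT3 i _ (e i a).2 _ (e i b).2⟩

theorem not_arrows_of_connected {V : Type*} [Fintype V] {G : SimpleGraph V} (hG : G.Connected) :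
    ¬ Arrows K3 G (2 * Fintype.card V - 2) := by
  intro h
  let R : SimpleGraph (Fin (2 * Fintype.card V - 2)) :=
    { Adj := fun x y => (x : ℕ) % 2 ≠ (y : ℕ) % 2
      symm := ⟨fun _ _ h => Ne.symm h⟩
      loopless := ⟨fun _ h => h rfl⟩ }
  rcases h R with h | ⟨⟨f⟩⟩
  · obtain ⟨a, b, c, h1, h2, h3⟩ := K3_contained_iff.1 h
    have e1 : (a : ℕ) % 2 ≠ (b : ℕ) % 2 := h1
    have e2 : (b : ℕ) % 2 ≠ (c : ℕ) % 2 := h2
    have e3 : (a : ℕ) % 2 ≠ (c : ℕ) % 2 := h3
    omega
  · have hconst : ∀ x y, G.Reachable x y → ((f x : Fin _) : ℕ) % 2 = ((f y : Fin _) : ℕ) % 2 := by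
      rintro x y ⟨p⟩
      induction p with
      | nil => rfl
      | @cons u v w huv p ih =>
        rw [← ih]
        have h1 := f.toHom.map_adj huv
        rw [SimpleGraph.compl_adj] at h1
        by_contra hne
        exact h1.2 hne
    obtain ⟨x0⟩ := hG.nonempty
    have hcard : Fintype.card V ≤ Fintype.card (Fin (Fintype.card V - 1)) := by
      refine Fintype.card_le_of_injective (fun x => (⟨((f x : Fin _) : ℕ) / 2, by
        have := (f x : Fin _).2
        omega⟩ : Fin (Fintype.card V - 1))) ?_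
      intro x y hxy
      have h1 : ((f x : Fin _) : ℕ) / 2 = ((f y : Fin _) : ℕ) / 2 := congrArg Fin.val hxy
      have h2 := hconst x y (hG.preconnected x y)
      apply f.injective
      apply Fin.ext
      show ((f x : Fin _) : ℕ) = ((f y : Fin _) : ℕ)
      omega
    have hpos : 0 < Fintype.card V := Fintype.card_pos_iff.2 ⟨x0⟩
    rw [Fintype.card_fin] at hcard
    omega

theorem connectedGood_iff {V : Type*} [Fintype V] {G : SimpleGraph V} :
    ConnectedGood G ↔ G.Connected ∧ Arrows K3 G (2 * Fintype.card V - 1) := by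
  constructor
  · rintro ⟨h1, h2⟩
    exact ⟨h1, ramsey_le_iff.1 h2.le⟩
  · rintro ⟨h1, h2⟩
    refine ⟨h1, ?_⟩
    have hpos : 0 < Fintype.card V := Fintype.card_pos_iff.2 h1.nonempty
    obtain ⟨k, hk⟩ : ∃ k, Fintype.card V = k + 1 := ⟨Fintype.card V - 1, by omega⟩
    have e1 : 2 * Fintype.card V - 1 = 2 * k + 1 := by omega
    have e2 : 2 * Fintype.card V - 2 = 2 * k := by omega
    have h3 := not_arrows_of_connected h1
    rw [e2] at h3
    rw [e1] at h2 ⊢
    exact ramsey_eq_iff.2 ⟨h2, h3⟩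

theorem g_bdd (n : ℕ) : BddAbove {q : ℕ | ∃ (V : Type) (_ : Fintype V) (G : SimpleGraph V),
    Fintype.card V = n ∧ ConnectedGood G ∧ q = G.edgeSet.ncard} := by
  classical
  refine ⟨n.choose 2, ?_⟩
  rintro q ⟨V, _, G, hV, -, rfl⟩
  rw [Set.ncard_eq_toFinset_card', ← hV]
  exact G.card_edgeFinset_le_card_choose_two

end Basic

section Main

/-- Removing one vertex from every clique lowers the Ramsey number by at least one. -/
theorem arrows_pred {t : ℕ} {s : Fin t → ℕ} {m : ℕ} (h : Arrows K3 (cliqueUnion s) (m + 1)) :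
    Arrows K3 (cliqueUnion (fun i => s i - 1)) m := by
  classical
  intro R
  let R' : SimpleGraph (Fin (m + 1)) :=
    { Adj := fun x y => ∃ a b, R.Adj a b ∧ x = Fin.castSucc a ∧ y = Fin.castSucc b
      symm := ⟨by
        rintro x y ⟨a, b, h1, h2, h3⟩
        exact ⟨b, a, h1.symm, h3, h2⟩⟩
      loopless := ⟨by
        rintro x ⟨a, b, h1, h2, h3⟩
        exact h1.ne (Fin.castSucc_injective _ (h2.symm.trans h3))⟩ }
  have hR' : ∀ a b, R'.Adj (Fin.castSucc a) (Fin.castSucc b) ↔ R.Adj a b := by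
    intro a b
    constructor
    · rintro ⟨a', b', h1, h2, h3⟩
      rw [Fin.castSucc_injective _ h2, Fin.castSucc_injective _ h3]
      exact h1
    · intro h1
      exact ⟨a, b, h1, rfl, rfl⟩
  rcases h R' with h | h
  · left
    rw [K3_contained_iff] at h ⊢
    obtain ⟨x, y, z, ⟨a, b, h1, rfl, rfl⟩, h2, h3⟩ := h
    obtain ⟨b', c, h4, h5, rfl⟩ := h2
    exact ⟨a, b, c, h1, by rw [Fin.castSucc_injective _ h5]; exact h4, (hR' _ _).1 h3⟩
  · right
    rw [cliqueUnion_contained_iff] at h ⊢
    obtain ⟨T, hT1, hT2, hT3⟩ := h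
    have hex : ∀ i, ∃ T' : Finset (Fin (m + 1)), T' ⊆ T i ∧ T'.card = s i - 1 ∧
        Fin.last m ∉ T' := by
      intro i
      by_cases hl : Fin.last m ∈ T i
      · refine ⟨(T i).erase (Fin.last m), Finset.erase_subset _ _, ?_, Finset.notMem_erase _ _⟩
        rw [Finset.card_erase_of_mem hl, hT1]
      · obtain ⟨T', h1, h2⟩ := Finset.exists_subset_card_eq
          (show s i - 1 ≤ (T i).card by rw [hT1]; omega)
        exact ⟨T', h1, h2, fun h => hl (h1 h)⟩
    choose T' h1 h2 h3 using hex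
    refine ⟨fun i => Finset.univ.filter (fun a => Fin.castSucc a ∈ T' i), ?_, ?_, ?_⟩
    · intro i
      rw [← h2 i]
      have : T' i = (Finset.univ.filter (fun a => Fin.castSucc a ∈ T' i)).map Fin.castSuccEmb := by
        ext x
        rw [Finset.mem_map]
        constructor
        · intro hx
          have hne : x ≠ Fin.last m := fun h => h3 i (h ▸ hx)
          refine ⟨x.castPred hne, ?_, ?_⟩
          · rw [Finset.mem_filter, Fin.castSucc_castPred]
            exact ⟨Finset.mem_univ _, hx⟩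
          · exact Fin.castSucc_castPred _ _
        · rintro ⟨a, ha, rfl⟩
          exact (Finset.mem_filter.1 ha).2
      conv_rhs => rw [this]
      rw [Finset.card_map]
    · intro i j hij
      rw [Finset.disjoint_left]
      intro a ha hb
      exact Finset.disjoint_left.1 (hT2 i j hij) (h1 i (Finset.mem_filter.1 ha).2)
        (h1 j (Finset.mem_filter.1 hb).2)
    · intro i x hx y hy hxy
      exact hT3 i _ (h1 i (Finset.mem_filter.1 hx).2) _ (h1 i (Finset.mem_filter.1 hy).2)
        ((hR' _ _).2 hxy)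

/-- The join of `K_2` and a graph on `m` vertices. -/
def twoJoin {m : ℕ} (H : SimpleGraph (Fin m)) : SimpleGraph (Fin 2 ⊕ Fin m) where
  Adj x y := match x, y with
    | .inl a, .inl b => a ≠ b
    | .inl _, .inr _ => True
    | .inr _, .inl _ => True
    | .inr x, .inr y => H.Adj x y
  symm := ⟨by
    rintro (a | x) (b | y) h
    · exact Ne.symm h
    · trivial
    · trivial
    · exact SimpleGraph.Adj.symm (G := H) h⟩
  loopless := ⟨by
    rintro (a | x) h
    · exact h rfl
    · exact H.irrefl h⟩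

/-- The image of a union of cliques. -/
def imageGraph {t m : ℕ} {s : Fin t → ℕ} (φ : (Σ i, Fin (s i)) ↪ Fin m) : SimpleGraph (Fin m) where
  Adj x y := ∃ p q, (cliqueUnion s).Adj p q ∧ φ p = x ∧ φ q = y
  symm := ⟨by
    rintro x y ⟨p, q, h1, h2, h3⟩
    exact ⟨q, p, h1.symm, h3, h2⟩⟩
  loopless := ⟨by
    rintro x ⟨p, q, h1, h2, h3⟩
    exact h1.ne (φ.injective (h2.trans h3.symm))⟩

theorem twoJoin_connected {m : ℕ} (H : SimpleGraph (Fin m)) : (twoJoin H).Connected := by
  have h0 : ∀ x, (twoJoin H).Reachable (Sum.inl 0) x := by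
    rintro (a | x)
    · by_cases ha : a = 0
      · rw [ha]
      · exact SimpleGraph.Adj.reachable (show (0 : Fin 2) ≠ a from Ne.symm ha)
    · exact SimpleGraph.Adj.reachable trivial
  have : Nonempty (Fin 2 ⊕ Fin m) := ⟨Sum.inl 0⟩
  exact SimpleGraph.Connected.mk (fun x y => (h0 x).symm.trans (h0 y))

theorem arrows_twoJoin {t m : ℕ} {s : Fin t → ℕ} (φ : (Σ i, Fin (s i)) ↪ Fin m) (hm : 2 ≤ m)
    (h : Arrows K3 (cliqueUnion s) m) : Arrows K3 (twoJoin (imageGraph φ)) (2 * m + 3) := by
  classical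
  intro R
  by_cases hK : K3.IsContained R
  · exact Or.inl hK
  right
  have htf : ∀ a b c, R.Adj a b → R.Adj b c → ¬ R.Adj a c := by
    intro a b c h1 h2 h3
    exact hK (K3_contained_iff.2 ⟨a, b, c, h1, h2, h3⟩)
  obtain ⟨u, v, huv, hna, W, hW, hWp⟩ := book R m hm (by simp) htf
  let ψ : Fin m ≃ W := (W.equivFinOfCardEq hW).symm
  have hcon : (cliqueUnion s).IsContained (R.comap (fun x => ((ψ x : W) : Fin (2 * m + 3))))ᶜ := by
    rcases h (R.comap (fun x => ((ψ x : W) : Fin (2 * m + 3)))) with h | h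
    · exfalso
      obtain ⟨a, b, c, h1, h2, h3⟩ := K3_contained_iff.1 h
      exact htf _ _ _ h1 h2 h3
    · exact h
  obtain ⟨g⟩ := hcon
  have hW0 : W.Nonempty := by
    rw [← Finset.card_pos]
    omega
  obtain ⟨w0, hw0⟩ := hW0
  let f : Fin m → Fin (2 * m + 3) := fun x =>
    if h : ∃ p, φ p = x then ((ψ (g h.choose) : W) : Fin (2 * m + 3)) else w0
  have hf : ∀ p, f (φ p) = ((ψ (g p) : W) : Fin (2 * m + 3)) := by
    intro p
    have hex : ∃ p', φ p' = φ p := ⟨p, rfl⟩
    simp only [f, dif_pos hex]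
    rw [φ.injective hex.choose_spec]
  obtain ⟨e, he⟩ := Finset.exists_equiv_extend_of_card_eq (α := Fin m) (t := W)
    (by simp [hW]) (s := Finset.univ.image φ) (f := f) (by
      intro x hx
      obtain ⟨y, hy, rfl⟩ := Finset.mem_image.1 hx
      obtain ⟨p, -, rfl⟩ := Finset.mem_image.1 hy
      rw [hf]
      exact (ψ (g p)).2) (by
      intro x hx y hy hxy
      obtain ⟨p, -, rfl⟩ := Finset.mem_image.1 (Finset.mem_coe.1 hx)
      obtain ⟨q, -, rfl⟩ := Finset.mem_image.1 (Finset.mem_coe.1 hy)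
      rw [hf, hf] at hxy
      rw [g.injective (ψ.injective (Subtype.ext hxy))])
  have he' : ∀ p, ((e (φ p) : W) : Fin (2 * m + 3)) = ((ψ (g p) : W) : Fin (2 * m + 3)) := by
    intro p
    rw [← hf]
    exact he _ (Finset.mem_image_of_mem _ (Finset.mem_univ _))
  let F : Fin 2 ⊕ Fin m → Fin (2 * m + 3) := Sum.elim ![u, v] (fun x => ((e x : W) : _))
  have hF0 : F (Sum.inl 0) = u := rfl
  have hF1 : F (Sum.inl 1) = v := rfl
  have hFr : ∀ x, F (Sum.inr x) = ((e x : W) : Fin (2 * m + 3)) := fun x => rfl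
  have hadj : ∀ a x, F (Sum.inl a) ≠ F (Sum.inr x) ∧ ¬ R.Adj (F (Sum.inl a)) (F (Sum.inr x)) := by
    intro a x
    have hw := hWp _ (e x).2
    fin_cases a
    · exact ⟨hw.1.symm, hw.2.2.1⟩
    · exact ⟨hw.2.1.symm, hw.2.2.2⟩
  have hll : ∀ a b : Fin 2, a ≠ b → F (Sum.inl a) ≠ F (Sum.inl b) ∧
      ¬ R.Adj (F (Sum.inl a)) (F (Sum.inl b)) := by
    intro a b hab
    fin_cases a <;> fin_cases b
    · exact absurd rfl hab
    · exact ⟨huv, hna⟩
    · exact ⟨huv.symm, fun h => hna h.symm⟩
    · exact absurd rfl hab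
  refine ⟨⟨⟨F, ?_⟩, ?_⟩⟩
  · rintro (a | x) (b | y) hxy
    · rw [SimpleGraph.compl_adj]
      exact hll a b hxy
    · rw [SimpleGraph.compl_adj]
      exact hadj a y
    · rw [SimpleGraph.compl_adj]
      have := hadj b x
      exact ⟨this.1.symm, fun h => this.2 h.symm⟩
    · obtain ⟨p, q, h1, rfl, rfl⟩ := hxy
      have h2 := g.toHom.map_adj h1
      rw [SimpleGraph.compl_adj] at h2 ⊢
      rw [hFr, hFr, he', he']
      refine ⟨fun h => h2.1 (ψ.injective (Subtype.ext h)), h2.2⟩
  · rintro (a | x) (b | y) hxy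
    · by_contra hne
      exact (hll a b (fun h => hne (by rw [h]))).1 hxy
    · exact absurd hxy (hadj a y).1
    · exact absurd hxy.symm (hadj b x).1
    · rw [e.injective (Subtype.ext hxy)]

theorem edges_twoJoin {t m : ℕ} {s : Fin t → ℕ} (φ : (Σ i, Fin (s i)) ↪ Fin m) :
    1 + (2 * m + ∑ i, (s i).choose 2) ≤ (twoJoin (imageGraph φ)).edgeSet.ncard := by
  classical
  let A : Type := Unit ⊕ ((Fin 2 × Fin m) ⊕ (Σ i, (⊤ : SimpleGraph (Fin (s i))).edgeSet))
  have hA : Fintype.card A = 1 + (2 * m + ∑ i, (s i).choose 2) := by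
    simp only [A, Fintype.card_sum, Fintype.card_prod, Fintype.card_sigma, Fintype.card_unit,
      Fintype.card_fin]
    congr 2
    refine Finset.sum_congr rfl fun i _ => ?_
    rw [← SimpleGraph.edgeFinset_card, SimpleGraph.card_edgeFinset_top_eq_card_choose_two,
      Fintype.card_fin]
  let f : A → Sym2 (Fin 2 ⊕ Fin m) := fun x => match x with
    | .inl _ => s(Sum.inl 0, Sum.inl 1)
    | .inr (.inl p) => s(Sum.inl p.1, Sum.inr p.2)
    | .inr (.inr ⟨i, e⟩) => (e : Sym2 (Fin (s i))).map (fun b => Sum.inr (φ ⟨i, b⟩))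
  have hfinj : Function.Injective f := by
    rintro (u | ⟨a, x⟩ | ⟨i, ⟨e, he⟩⟩) (u' | ⟨b, y⟩ | ⟨j, ⟨e', he'⟩⟩) h
    · rfl
    · simp only [f, Sym2.eq_iff] at h
      rcases h with h | h
      · exact absurd h.2 (by simp)
      · exact absurd h.1 (by simp)
    · induction e' using Sym2.ind with
      | _ c d =>
        simp only [f, Sym2.map_mk, Sym2.eq_iff] at h
        rcases h with h | h
        · exact absurd h.1 (by simp)
        · exact absurd h.1 (by simp)
    · simp only [f, Sym2.eq_iff] at h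
      rcases h with h | h
      · exact absurd h.2 (by simp)
      · exact absurd h.2 (by simp)
    · simp only [f, Sym2.eq_iff] at h
      rcases h with h | h
      · rw [Sum.inl.inj h.1, Sum.inr.inj h.2]
      · exact absurd h.1 (by simp)
    · induction e' using Sym2.ind with
      | _ c d =>
        simp only [f, Sym2.map_mk, Sym2.eq_iff] at h
        rcases h with h | h
        · exact absurd h.1 (by simp)
        · exact absurd h.1 (by simp)
    · induction e using Sym2.ind with
      | _ c d =>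
        simp only [f, Sym2.map_mk, Sym2.eq_iff] at h
        rcases h with h | h
        · exact absurd h.1 (by simp)
        · exact absurd h.1 (by simp)
    · induction e using Sym2.ind with
      | _ c d =>
        simp only [f, Sym2.map_mk, Sym2.eq_iff] at h
        rcases h with h | h
        · exact absurd h.1 (by simp)
        · exact absurd h.2 (by simp)
    · induction e using Sym2.ind with
      | _ c d =>
        induction e' using Sym2.ind with
        | _ c' d' =>
          simp only [f, Sym2.map_mk, Sym2.eq_iff] at h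
          rcases h with ⟨h1, h2⟩ | ⟨h1, h2⟩
          · have g1 := φ.injective (Sum.inr.inj h1)
            have g2 := φ.injective (Sum.inr.inj h2)
            have hij : i = j := congrArg Sigma.fst g1
            subst hij
            have k1 : c = c' := by simpa using g1
            have k2 : d = d' := by simpa using g2
            subst k1 k2
            rfl
          · have g1 := φ.injective (Sum.inr.inj h1)
            have g2 := φ.injective (Sum.inr.inj h2)
            have hij : i = j := congrArg Sigma.fst g1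
            subst hij
            have k1 : c = d' := by simpa using g1
            have k2 : d = c' := by simpa using g2
            subst k1 k2
            congr 2
            congr 1
            exact Subtype.ext Sym2.eq_swap
  have hmem : ∀ x, f x ∈ (twoJoin (imageGraph φ)).edgeSet := by
    rintro (u | ⟨a, x⟩ | ⟨i, ⟨e, he⟩⟩)
    · show (0 : Fin 2) ≠ 1
      decide
    · trivial
    · induction e using Sym2.ind with
      | _ c d =>
        have hcd : c ≠ d := he
        refine ⟨⟨i, c⟩, ⟨i, d⟩, ⟨rfl, fun h => hcd ?_⟩, rfl, rfl⟩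
        simpa using h
  have hsub : Set.range f ⊆ (twoJoin (imageGraph φ)).edgeSet := by
    rintro e ⟨x, rfl⟩
    exact hmem x
  rw [← hA]
  calc Fintype.card A = (Set.range f).ncard := by
        rw [← Set.image_univ, Set.ncard_image_of_injective _ hfinj, Set.ncard_univ,
          Nat.card_eq_fintype_card]
    _ ≤ _ := Set.ncard_le_ncard hsub (Set.toFinite _)

theorem sum_le_of_arrows {t N : ℕ} {s : Fin t → ℕ} (h : Arrows K3 (cliqueUnion s) N) :
    ∑ i, s i ≤ N := by
  classical
  rcases h ⊥ with h | h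
  · obtain ⟨a, b, c, h1, -⟩ := K3_contained_iff.1 h
    exact absurd h1 (by simp)
  · obtain ⟨f⟩ := h
    have := Fintype.card_le_of_injective f f.injective
    simpa [Fintype.card_sigma] using this

/-- The main step: for `n ≥ 4` the candidates behind `e_2(n)` are never optimal. -/
theorem lt_g {n t : ℕ} (hn : 4 ≤ n) {s : Fin t → ℕ} (ht : 1 ≤ t) (hs : ∀ i, 1 ≤ s i)
    (h : Arrows K3 (cliqueUnion s) (n - 1)) : n - 1 + ∑ i, (s i).choose 2 < g n := by
  classical
  obtain ⟨m, rfl⟩ : ∃ m, n = m + 2 := ⟨n - 2, by omega⟩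
  have hm : 2 ≤ m := by omega
  have h' : Arrows K3 (cliqueUnion s) (m + 1) := h
  have hsum := sum_le_of_arrows h'
  have hpred := arrows_pred h'
  -- the total order of the reduced cliques
  have hsum' : ∑ i, (s i - 1) + t = ∑ i, s i := by
    have : ∑ i, s i = ∑ i : Fin t, ((s i - 1) + 1) :=
      Finset.sum_congr rfl fun i _ => by have := hs i; omega
    rw [this, Finset.sum_add_distrib]
    simp
  have hsmall : ∑ i, (s i - 1) + 1 ≤ m := by
    by_cases ht2 : 2 ≤ t
    · omega
    · have ht1 : t = 1 := by omega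
      subst ht1
      by_contra hcon
      push Not at hcon
      have hs0 : s 0 = m + 1 := by
        rw [Fin.sum_univ_one] at hsum hcon
        omega
      -- one red edge
      let R : SimpleGraph (Fin (m + 1)) :=
        { Adj := fun x y => (x = 0 ∧ y = Fin.last m) ∨ (x = Fin.last m ∧ y = 0)
          symm := ⟨by
            rintro x y (h | h)
            · exact Or.inr ⟨h.2, h.1⟩
            · exact Or.inl ⟨h.2, h.1⟩⟩
          loopless := ⟨by
            rintro x (h | h)
            · have := h.1.symm.trans h.2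
              have := congrArg Fin.val this
              simp at this
              omega
            · have := h.1.symm.trans h.2
              have := congrArg Fin.val this
              simp at this
              omega⟩ }
      have h0l : (0 : Fin (m + 1)) ≠ Fin.last m := by
        intro h
        have := congrArg Fin.val h
        simp at this
        omega
      rcases h' R with h1 | h1
      · obtain ⟨a, b, c, e1, e2, e3⟩ := K3_contained_iff.1 h1
        rcases e1 with e1 | e1 <;> rcases e2 with e2 | e2 <;> rcases e3 with e3 | e3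
        · exact h0l (e2.1.symm.trans e1.2)
        · exact h0l (e1.1.symm.trans e3.1)
        · exact h0l (e2.2.symm.trans e3.2)
        · exact h0l (e1.1.symm.trans e3.1)
        · exact h0l (e3.1.symm.trans e1.1)
        · exact h0l (e3.2.symm.trans e2.2)
        · exact h0l (e3.1.symm.trans e1.1)
        · exact h0l (e1.2.symm.trans e2.1)
      · obtain ⟨T, hT1, -, hT3⟩ := cliqueUnion_contained_iff.1 h1
        have hTu : T 0 = Finset.univ := by
          rw [← Finset.card_eq_iff_eq_univ, hT1, hs0, Fintype.card_fin]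
        exact hT3 0 0 (by rw [hTu]; exact Finset.mem_univ _) (Fin.last m)
          (by rw [hTu]; exact Finset.mem_univ _) (Or.inl ⟨rfl, rfl⟩)
  have hφ : Nonempty ((Σ i, Fin (s i - 1)) ↪ Fin m) := by
    apply Function.Embedding.nonempty_of_card_le
    simp only [Fintype.card_sigma, Fintype.card_fin]
    omega
  obtain ⟨φ⟩ := hφ
  have harr := arrows_twoJoin φ hm hpred
  have hed := edges_twoJoin φ
  have hcard : Fintype.card (Fin 2 ⊕ Fin m) = m + 2 := by
    simp only [Fintype.card_sum, Fintype.card_fin]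
    omega
  have hgood : ConnectedGood (twoJoin (imageGraph φ)) := by
    rw [connectedGood_iff, hcard]
    exact ⟨twoJoin_connected _, harr⟩
  have hle : (twoJoin (imageGraph φ)).edgeSet.ncard ≤ g (m + 2) :=
    le_csSup (g_bdd _) ⟨_, inferInstance, twoJoin (imageGraph φ), hcard, hgood, rfl⟩
  have hch : ∑ i, (s i).choose 2 = ∑ i, (s i - 1).choose 2 + ∑ i, (s i - 1) := by
    rw [← Finset.sum_add_distrib]
    refine Finset.sum_congr rfl fun i _ => ?_
    obtain ⟨k, hk⟩ : ∃ k, s i = k + 1 := ⟨s i - 1, by have := hs i; omega⟩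
    rw [hk, Nat.add_sub_cancel, Nat.choose_succ_succ' k 1, Nat.choose_one_right, add_comm]
  omega

end Main

section Final

theorem one_mem (n : ℕ) (hn : 2 ≤ n) :
    Arrows K3 (cliqueUnion (fun _ : Fin 1 => 1)) (n - 1) := by
  intro R
  right
  rw [cliqueUnion_contained_iff]
  refine ⟨fun _ => {⟨0, by omega⟩}, by simp, ?_, ?_⟩
  · intro i j hij
    exact absurd (Subsingleton.elim i j) hij
  · intro i x hx y hy hxy
    rw [Finset.mem_singleton] at hx hy
    rw [hx, hy] at hxy
    exact hxy.ne rfl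

theorem choose_zero_of_arrows {n t : ℕ} (hn : n ≤ 3) {s : Fin t → ℕ}
    (h : Arrows K3 (cliqueUnion s) (n - 1)) (i : Fin t) : (s i).choose 2 = 0 := by
  have h2 : Arrows K3 (cliqueUnion s) 2 := h.mono (by omega)
  rcases h2 ⊤ with h3 | h3
  · obtain ⟨a, b, c, e1, e2, e3⟩ := K3_contained_iff.1 h3
    have e1' : a ≠ b := e1
    have e2' : b ≠ c := e2
    have e3' : a ≠ c := e3
    omega
  · obtain ⟨T, hT1, -, hT3⟩ := cliqueUnion_contained_iff.1 h3
    apply Nat.choose_eq_zero_of_lt
    rw [← hT1 i]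
    by_contra hcon
    push Not at hcon
    obtain ⟨x, hx, y, hy, hxy⟩ := Finset.one_lt_card.1 (show 1 < (T i).card by omega)
    exact hT3 i x hx y hy hxy

theorem e2_small {n : ℕ} (hn : 2 ≤ n) (hn3 : n ≤ 3) : e2 n = n - 1 := by
  have : {q : ℕ | ∃ (t : ℕ) (s : Fin t → ℕ), 1 ≤ t ∧ (∀ i, 1 ≤ s i) ∧
      ramsey K3 (cliqueUnion s) ≤ ((n - 1 : ℕ) : ℕ∞) ∧ q = ∑ i, (s i).choose 2} = {0} := by
    ext q
    constructor
    · rintro ⟨t, s, -, -, h, rfl⟩
      rw [ramsey_le_iff] at h
      exact Finset.sum_eq_zero fun i _ => choose_zero_of_arrows hn3 h i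
    · rintro rfl
      refine ⟨1, fun _ => 1, le_rfl, fun _ => le_rfl, ?_, by simp⟩
      rw [ramsey_le_iff]
      exact one_mem n hn
  rw [e2, this, csSup_singleton, Nat.add_zero]

theorem e1_small {n : ℕ} (hn : 2 ≤ n) (hn3 : n ≤ 3) : e1 n = n - 1 := by
  have : {q : ℕ | ∃ t s : ℕ, 1 ≤ t ∧ 1 ≤ s ∧
    ramsey K3 (cliqueUnion (fun _ : Fin t => s)) ≤ ((n - 1 : ℕ) : ℕ∞) ∧ q = t * s.choose 2} =
      {0} := by
    ext q
    constructor
    · rintro ⟨t, s, ht, -, h, rfl⟩
      rw [ramsey_le_iff] at h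
      have := choose_zero_of_arrows hn3 h ⟨0, ht⟩
      rw [Set.mem_singleton_iff, this, Nat.mul_zero]
    · rintro rfl
      refine ⟨1, 1, le_rfl, le_rfl, ?_, by simp⟩
      rw [ramsey_le_iff]
      exact one_mem n hn
  rw [e1, this, csSup_singleton, Nat.add_zero]

theorem e2_lt {n : ℕ} (hn : 4 ≤ n) : e2 n < g n := by
  let A := {q : ℕ | ∃ (t : ℕ) (s : Fin t → ℕ), 1 ≤ t ∧ (∀ i, 1 ≤ s i) ∧
      ramsey K3 (cliqueUnion s) ≤ ((n - 1 : ℕ) : ℕ∞) ∧ q = ∑ i, (s i).choose 2}
  have hne : A.Nonempty := ⟨0, 1, fun _ => 1, le_rfl, fun _ => le_rfl,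
    ramsey_le_iff.2 (one_mem n (by omega)), by simp⟩
  have hlt : ∀ q ∈ A, n - 1 + q < g n := by
    rintro q ⟨t, s, ht, hs, h, rfl⟩
    exact lt_g hn ht hs (ramsey_le_iff.1 h)
  have hbdd : BddAbove A := ⟨g n, fun q hq => by have := hlt q hq; omega⟩
  exact hlt _ (Nat.sSup_mem hne hbdd)

theorem e1_lt {n : ℕ} (hn : 4 ≤ n) : e1 n < g n := by
  let A := {q : ℕ | ∃ t s : ℕ, 1 ≤ t ∧ 1 ≤ s ∧
    ramsey K3 (cliqueUnion (fun _ : Fin t => s)) ≤ ((n - 1 : ℕ) : ℕ∞) ∧ q = t * s.choose 2}
  have hne : A.Nonempty := ⟨0, 1, 1, le_rfl, le_rfl,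
    ramsey_le_iff.2 (one_mem n (by omega)), by simp⟩
  have hlt : ∀ q ∈ A, n - 1 + q < g n := by
    rintro q ⟨t, s, ht, hs, h, rfl⟩
    have := lt_g hn ht (fun _ => hs) (ramsey_le_iff.1 h)
    simpa using this
  have hbdd : BddAbove A := ⟨g n, fun q hq => by have := hlt q hq; omega⟩
  exact hlt _ (Nat.sSup_mem hne hbdd)

/-- The star with `k` leaves. -/
def star (k : ℕ) : SimpleGraph (Option (Fin k)) where
  Adj x y := (x = none ∧ y ≠ none) ∨ (x ≠ none ∧ y = none)
  symm := ⟨by
    rintro x y (h | h)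
    · exact Or.inr ⟨h.2, h.1⟩
    · exact Or.inl ⟨h.2, h.1⟩⟩
  loopless := ⟨by
    rintro x (h | h)
    · exact h.2 h.1
    · exact h.1 h.2⟩

theorem star_connected (k : ℕ) : (star k).Connected := by
  have h0 : ∀ x, (star k).Reachable none x := by
    intro x
    by_cases hx : x = none
    · rw [hx]
    · exact SimpleGraph.Adj.reachable (Or.inl ⟨rfl, hx⟩)
  have : Nonempty (Option (Fin k)) := ⟨none⟩
  exact SimpleGraph.Connected.mk (fun x y => (h0 x).symm.trans (h0 y))

theorem star_arrows (k : ℕ) : Arrows K3 (star k) (2 * k + 1) := by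
  classical
  intro R
  by_cases hK : K3.IsContained R
  · exact Or.inl hK
  right
  have htf : ∀ a b c, R.Adj a b → R.Adj b c → ¬ R.Adj a c := by
    intro a b c h1 h2 h3
    exact hK (K3_contained_iff.2 ⟨a, b, c, h1, h2, h3⟩)
  -- a vertex with at least k blue neighbours
  have key : ∃ (v : Fin (2 * k + 1)) (B : Finset (Fin (2 * k + 1))), B.card = k ∧
      ∀ w ∈ B, w ≠ v ∧ ¬ R.Adj v w := by
    let v : Fin (2 * k + 1) := ⟨0, by omega⟩
    by_cases hdeg : k + 1 ≤ (Finset.univ.filter (fun w => R.Adj v w)).card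
    · obtain ⟨B, hB, hBc⟩ := Finset.exists_subset_card_eq hdeg
      have hBne : B.Nonempty := by
        rw [← Finset.card_pos]
        omega
      obtain ⟨b, hb⟩ := hBne
      refine ⟨b, B.erase b, by rw [Finset.card_erase_of_mem hb, hBc]; omega, fun w hw => ?_⟩
      rw [Finset.mem_erase] at hw
      have h1 : R.Adj v b := (Finset.mem_filter.1 (hB hb)).2
      have h2 : R.Adj v w := (Finset.mem_filter.1 (hB hw.2)).2
      exact ⟨hw.1, htf b v w h1.symm h2⟩
    · push Not at hdeg
      have h1 : k ≤ (Finset.univ.filter (fun w => w ≠ v ∧ ¬ R.Adj v w)).card := by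
        have h2 : (Finset.univ.erase v : Finset (Fin (2 * k + 1))) ⊆
            (Finset.univ.filter (fun w => R.Adj v w)) ∪
              (Finset.univ.filter (fun w => w ≠ v ∧ ¬ R.Adj v w)) := by
          intro w hw
          rw [Finset.mem_erase] at hw
          rw [Finset.mem_union, Finset.mem_filter, Finset.mem_filter]
          by_cases h : R.Adj v w
          · exact Or.inl ⟨Finset.mem_univ _, h⟩
          · exact Or.inr ⟨Finset.mem_univ _, hw.1, h⟩
        have h3 := Finset.card_le_card h2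
        have h4 := Finset.card_union_le (Finset.univ.filter (fun w => R.Adj v w))
          (Finset.univ.filter (fun w => w ≠ v ∧ ¬ R.Adj v w))
        rw [Finset.card_erase_of_mem (Finset.mem_univ _), Finset.card_univ, Fintype.card_fin] at h3
        omega
      obtain ⟨B, hB, hBc⟩ := Finset.exists_subset_card_eq h1
      exact ⟨v, B, hBc, fun w hw => (Finset.mem_filter.1 (hB hw)).2⟩
  obtain ⟨v, B, hBc, hB⟩ := key
  let e : Fin k ≃ B := (B.equivFinOfCardEq hBc).symm
  refine ⟨⟨⟨fun x => x.elim v (fun i => ((e i : B) : _)), ?_⟩, ?_⟩⟩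
  · rintro (_ | x) (_ | y) hxy
    · rcases hxy with h | h
      · exact absurd rfl h.2
      · exact absurd rfl h.1
    · rw [SimpleGraph.compl_adj]
      have := hB _ (e y).2
      exact ⟨this.1.symm, this.2⟩
    · rw [SimpleGraph.compl_adj]
      have := hB _ (e x).2
      exact ⟨this.1, fun h => this.2 h.symm⟩
    · rcases hxy with h | h
      · exact absurd h.1 (by simp)
      · exact absurd h.2 (by simp)
  · rintro (_ | x) (_ | y) hxy
    · rfl
    · exact absurd hxy.symm (hB _ (e y).2).1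
    · exact absurd hxy (hB _ (e x).2).1
    · rw [e.injective (Subtype.ext hxy)]

theorem star_edges (k : ℕ) : k ≤ (star k).edgeSet.ncard := by
  classical
  let f : Fin k → Sym2 (Option (Fin k)) := fun i => s(none, some i)
  have hf : Function.Injective f := by
    intro i j hij
    simp only [f, Sym2.eq_iff] at hij
    rcases hij with h | h
    · exact Option.some.inj h.2
    · exact absurd h.2 (by simp)
  have hsub : Set.range f ⊆ (star k).edgeSet := by
    rintro e ⟨i, rfl⟩
    exact Or.inl ⟨rfl, by simp⟩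
  calc k = (Set.range f).ncard := by
        rw [← Set.image_univ, Set.ncard_image_of_injective _ hf, Set.ncard_univ, Nat.card_fin]
    _ ≤ _ := Set.ncard_le_ncard hsub (Set.toFinite _)

theorem le_g {n : ℕ} (hn : 1 ≤ n) : n - 1 ≤ g n := by
  classical
  have hcard : Fintype.card (Option (Fin (n - 1))) = n := by
    rw [Fintype.card_option, Fintype.card_fin]
    omega
  have hgood : ConnectedGood (star (n - 1)) := by
    rw [connectedGood_iff, hcard]
    refine ⟨star_connected _, ?_⟩
    have := star_arrows (n - 1)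
    have e : 2 * (n - 1) + 1 = 2 * n - 1 := by omega
    rwa [e] at this
  exact (star_edges (n - 1)).trans
    (le_csSup (g_bdd _) ⟨_, inferInstance, star (n - 1), hcard, hgood, rfl⟩)

theorem g_two : g 2 ≤ 1 := by
  classical
  apply csSup_le'
  rintro q ⟨V, _, G, hV, -, rfl⟩
  rw [Set.ncard_eq_toFinset_card']
  have h := G.card_edgeFinset_le_card_choose_two
  rw [hV] at h
  exact h

/-- The red graph is a five-cycle. -/
def c5 : SimpleGraph (Fin 5) where
  Adj x y := x + 1 = y ∨ y + 1 = x
  symm := ⟨fun _ _ h => h.symm⟩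
  loopless := ⟨by decide⟩

theorem c5_tf : ∀ a b c : Fin 5, (a + 1 = b ∨ b + 1 = a) → (b + 1 = c ∨ c + 1 = b) →
    ¬ (a + 1 = c ∨ c + 1 = a) := by
  decide

theorem c5_compl_tf : ∀ a b c : Fin 5, a ≠ b → b ≠ c → a ≠ c → ¬ (a + 1 = b ∨ b + 1 = a) →
    ¬ (b + 1 = c ∨ c + 1 = b) → (a + 1 = c ∨ c + 1 = a) := by
  decide

theorem g_three : g 3 ≤ 2 := by
  classical
  apply csSup_le'
  rintro q ⟨V, _, G, hV, hG, rfl⟩
  rw [Set.ncard_eq_toFinset_card']
  by_contra hcon
  push Not at hcon
  have htop : G = ⊤ := by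
    by_contra hne
    have hlt : G < ⊤ := lt_top_iff_ne_top.2 hne
    have h1 := Finset.card_lt_card (SimpleGraph.edgeFinset_strict_mono hlt)
    rw [SimpleGraph.card_edgeFinset_top_eq_card_choose_two, hV] at h1
    have h2 : 2 < G.edgeFinset.card := hcon
    have h3 : Nat.choose 3 2 = 3 := rfl
    omega
  subst htop
  have h5 := (connectedGood_iff.1 hG).2
  rw [hV] at h5
  rcases h5 c5 with h | ⟨⟨f⟩⟩
  · obtain ⟨a, b, c, h1, h2, h3⟩ := K3_contained_iff.1 h
    exact c5_tf a b c h1 h2 h3
  · obtain ⟨a, b, c, hab, hac, hbc⟩ := Fintype.two_lt_card_iff.1 (show 2 < Fintype.card V by omega)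
    have h1 := f.toHom.map_adj (show (⊤ : SimpleGraph V).Adj a b from hab)
    have h2 := f.toHom.map_adj (show (⊤ : SimpleGraph V).Adj b c from hbc)
    have h3 := f.toHom.map_adj (show (⊤ : SimpleGraph V).Adj a c from hac)
    rw [SimpleGraph.compl_adj] at h1 h2 h3
    exact h3.2 (c5_compl_tf _ _ _ h1.1 h2.1 h3.1 h1.2 h2.2)

/-- For every `n ≥ 2`: `g(K_3, n) = e_1(n)` if and only if `n ≤ 3`, and `g(K_3, n) = e_2(n)` if and
only if `n ≤ 3`. -/
theorem result : ∀ n : ℕ, 2 ≤ n → (g n = e1 n ↔ n ≤ 3) ∧ (g n = e2 n ↔ n ≤ 3) := by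
  intro n hn
  have hsmall : n ≤ 3 → g n = n - 1 := by
    intro h3
    have h4 : n = 2 ∨ n = 3 := by omega
    rcases h4 with rfl | rfl
    · exact le_antisymm g_two (le_g (by norm_num))
    · exact le_antisymm g_three (le_g (by norm_num))
  constructor
  · constructor
    · intro h
      by_contra hcon
      have := e1_lt (show 4 ≤ n by omega)
      omega
    · intro h
      rw [hsmall h, e1_small hn h]
  · constructor
    · intro h
      by_contra hcon
      have := e2_lt (show 4 ≤ n by omega)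
      omega
    · intro h
      rw [hsmall h, e2_small hn h]

end Final

end Pool.Agent.Results.MP_0fcc2a_co.BookSurplus
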